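import Pool.Agent.Lib.H40B5.C
import Pool.Agent.Lib.H40T.X5
import Pool.Agent.Lib.H47G5.Abs
import Pool.Agent.Lib.H36R.L2U4

/-!
# H63X, file Top: the exchange for `Cv` (cycles of length at least five, or one cycle) in every 2-connected graph,
from the core step `H40B5.keyX` of helper40 (plan of helper41); the lower links for `Cv`
-/

set_option autoImplicit false

namespace H63X

open Finset H98P H63F H98M H30F H85TF LD H36R H47G5

/-- The core step. -/
def KeyX (V : Type) [Fintype V] [DecidableEq V] : Prop :=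
  ∀ (E F : Finset (Sym2 V)) (Y S A : Finset V) (b d u : V), TCY E Y → H40B5.CycOn E F S → S ⊆ Y → S.card ≤ 4 →
    A ⊆ S → b ∈ S → d ∉ S → u ∈ Y → u ∉ S → s(b, u) ∈ E → ¬ H8F.Cov5 E (insert b A) → Cv E (insert d A) →
      OneCyc E (insert u (insert b A))

variable {V : Type} [Fintype V] [DecidableEq V]

theorem core (hkey : KeyX V) {E : Finset (Sym2 V)} {Y A U : Finset V} {b d : V} (hT : TCY E Y)
    (hnb : ¬ H8F.Cov5 E (insert b A)) (hb : Cv E (insert b A)) (hd : Cv E (insert d A)) (hbU : b ∈ U) (hdU : d ∈ U)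
    (hU : ¬ Disc U E) (hin : ∀ u ∈ U, u ≠ b → u ≠ d → ¬ Cv E (insert u A)) :
    OneCyc E (insert b (insert d A)) := by
  obtain ⟨F, hF, h1, hA⟩ := hb.resolve_left hnb
  have hc := H40B5.cycOn_of_oneF hF h1
  obtain ⟨S, hS⟩ : ∃ S : Finset V, S = univ.filter fun v => dg F v = 2 := ⟨_, rfl⟩
  rw [← hS] at hc
  have hAS : insert b A ⊆ S := fun v hv => by
    rw [hS]
    exact mem_filter.2 ⟨mem_univ v, hA v hv⟩
  have hSY : S ⊆ Y := by
    intro v hv
    obtain ⟨x, y, -, hx, -⟩ := H40T.two_nb (E := F) (w := v) (hc.two v hv)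
    exact hT.sub _ (hF hx) v (Sym2.mem_mk_left _ _)
  have h4 : S.card ≤ 4 := by
    by_contra hcon
    exact hnb (H8F.cov5_sub hAS (hc.cov5 hT.loop (by omega)))
  by_cases hdS : d ∈ S
  · refine ⟨F, hF, h1, fun v hv => ?_⟩
    apply hc.two
    rw [mem_insert, mem_insert] at hv
    rcases hv with rfl | rfl | hv
    · exact hAS (mem_insert_self _ _)
    · exact hdS
    · exact hAS (mem_insert_of_mem hv)
  · have hbS : b ∈ S := hAS (mem_insert_self _ _)
    have hbd : d ≠ b := fun e => hdS (e ▸ hbS)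
    obtain ⟨u, huU, hub, hbu⟩ : ∃ u ∈ U, u ≠ b ∧ s(b, u) ∈ E := by
      by_contra hcon
      push Not at hcon
      refine hU ⟨{b}, U.erase b, ⟨b, mem_singleton_self b⟩, ⟨d, mem_erase.2 ⟨hbd, hdU⟩⟩, ?_, ?_, ?_⟩
      · rw [disjoint_singleton_left]
        exact notMem_erase _ _
      · rw [← insert_eq, insert_erase hbU]
      · intro x hx y hy
        rw [mem_singleton] at hx
        rw [hx]
        exact hcon y (mem_of_mem_erase hy) (ne_of_mem_erase hy)
    have huY : u ∈ Y := hT.sub _ hbu u (Sym2.mem_mk_right _ _)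
    by_cases huS : u ∈ S
    · have hud : u ≠ d := fun e => hdS (e ▸ huS)
      refine absurd (Or.inr ⟨F, hF, h1, fun v hv => ?_⟩) (hin u huU hub hud)
      apply hc.two
      rw [mem_insert] at hv
      rcases hv with rfl | hv
      · exact huS
      · exact hAS (mem_insert_of_mem hv)
    · have hk := hkey E F Y S A b d u hT hc hSY h4 ((subset_insert _ _).trans hAS) hbS hdS huY huS hbu hnb hd
      by_cases hud : u = d
      · rw [hud] at hk
        rwa [insert_comm] at hk
      · exact absurd (Or.inr (oneCyc_sub (insert_subset_insert _ (subset_insert _ _)) hk)) (hin u huU hub hud)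

/-- THE EXCHANGE for `Cv` in 2-connected graphs. -/
theorem exchCv (hkey : KeyX V) {E : Finset (Sym2 V)} {Y A U : Finset V} {b d : V} (hT : TCY E Y)
    (hb : Cv E (insert b A)) (hd : Cv E (insert d A)) (hbU : b ∈ U) (hdU : d ∈ U)
    (hU : ¬ Disc U E) (hin : ∀ u ∈ U, u ≠ b → u ≠ d → ¬ Cv E (insert u A)) :
    Cv E (insert b (insert d A)) := by
  by_cases h5b : H8F.Cov5 E (insert b A)
  · by_cases h5d : H8F.Cov5 E (insert d A)
    · exact Or.inl (H40T.exch5_set hT.loop h5b h5d hbU hdU hU fun u hu h1 h2 h3 => hin u hu h1 h2 (Or.inl h3))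
    · rw [insert_comm]
      exact Or.inr (core hkey hT h5d hd hb hdU hbU hU fun u hu h1 h2 => hin u hu h2 h1)
  · exact Or.inr (core hkey hT h5b hb hd hbU hdU hU hin)

/-- The lower links for `Cv` in a 2-connected graph. -/
theorem base10_cv (hkey : KeyX V) (cf : CycFacts V) (E : Finset (Sym2 V)) (Y M : Finset V) (hT : TCY E Y)
    (hMY : M ⊆ Y) (hM : ¬ Disc M E) (hC : ¬ Cv E M) :
    AC (Ch fun W : Finset V => ¬ Cv E W ∧ W ⊂ M) := by
  have hne : M.Nonempty := by
    rw [nonempty_iff_ne_empty]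
    rintro rfl
    exact hC (Or.inr ⟨∅, empty_subset _, ⟨fun v => Or.inl (by unfold dg; simp), fun T _ x _ hx => by
      unfold dg at hx
      simp at hx⟩, fun v hv => absurd hv (notMem_empty _)⟩)
  obtain ⟨w, hw⟩ := hne
  have h1 := H96TF.ac_nf (G := E) (Pi := Cv E) (fun A B h hB => cv_dn E A B h hB)
    (fun A b d U hb hd hbU hdU hU hin => exchCv hkey hT hb hd hbU hdU hU hin) M.card M ∅ rfl hM
    ⟨w, hw, by
      have h2 := cf.pair E Y w w hT (hMY hw) (hMY hw)
      rw [pair_eq_singleton] at h2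
      exact Or.inr h2⟩ (by rwa [union_empty])
  refine ac_congr (fun c => ?_) h1
  have e : (fun W' : Finset V => W' ⊆ M ∧ W' ≠ M ∧ ¬ Cv E (W' ∪ ∅)) =
      fun W : Finset V => ¬ Cv E W ∧ W ⊂ M := by
    funext W
    rw [union_empty]
    refine propext ⟨fun h => ⟨h.2.2, Finset.ssubset_iff_subset_ne.2 ⟨h.1, h.2.1⟩⟩, fun h => ⟨h.2.1, h.2.ne, h.1⟩⟩
  rw [e]

end H63X
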